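import Pool.Agent.Work.MP_63d866_gt.Init
import Pool.Agent.Work.MP_63d866_gt.Torus

/-!
Among all oriented links with crossing number `n`, the torus link `T(2,n)` with parallel
orientation has the largest `|∇_k|`, for every `k` with `n ≡ k + 1` modulo 2.
-/

namespace Pool.Agent.Results.MP_63d866_gt.TorusMax

open Polynomial Pool.Agent.Work.MP_63d866_gt

/-- isotopic codes: one is a diagram if and only if the other is -/
lemma isotopic_diagram {W W' : Code} (h : Isotopic W W') : Diagram W ↔ Diagram W' := by
  induction h with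
  | rel _ _ h => exact ⟨fun _ => h.2.1, fun _ => h.1⟩
  | refl _ => exact Iff.rfl
  | symm _ _ _ ih => exact ih.symm
  | trans _ _ _ _ _ ih1 ih2 => exact ih1.trans ih2

/-- Let `P` be the Conway polynomial.  For all `k` and all `n ≥ 2` with `n ≡ k + 1` modulo 2,
every link (given by a diagram `W`) with crossing number `n` satisfies
`|∇_k(W)| ≤ |∇_k(T(2,n))|`. -/
theorem result (P : Code → ℤ[X]) (hP : IsConway P) (k n : ℕ) (hn : 2 ≤ n)
    (hkn : n % 2 = (k + 1) % 2) (W : Code) (hW : Diagram W) (hc : crossingNumber W = n) :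
    |(P W).coeff k| ≤ |(P (torus n)).coeff k| := by
  have hmem : n ∈ {n | ∃ W', Isotopic W W' ∧ crossings W' = n} := by
    rw [← hc]
    exact Nat.sInf_mem ⟨crossings W, W, Relation.EqvGen.refl W, rfl⟩
  obtain ⟨W', hiso, hcr⟩ := hmem
  have hD : Diagram W' := (isotopic_diagram hiso).mp hW
  have hne : W' ≠ [] := by
    rintro rfl
    have : crossings [] = 0 := rfl
    omega
  have hb := conway_bound hP hD hne k (by rw [hcr]; exact hkn)
  rw [hP.isotopy _ _ hiso, conway_torus hP n k hkn, Int.abs_eq_natAbs, Int.abs_eq_natAbs,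
    Int.natAbs_natCast]
  rw [hcr] at hb
  exact_mod_cast hb

end Pool.Agent.Results.MP_63d866_gt.TorusMax
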